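import Pool.Agent.H58.FL.Targets

/-!
# Row DIV of the board flb_modules: divisibility from the clusters
-/

set_option autoImplicit false

open Pool.Agent.H58.FL Pool.Agent.H59 Pool.Agent.H48.FR

namespace Pool.Agent.H16.FLB

theorem pf_DIV (hINT : T_INT) (hALG : T_ALG) : T_DIV := by
  intro κ hκ hClu E _ _ X v n b hv hn hb h0
  obtain ⟨hI1, hI2⟩ := hINT E
  have hne : ∀ x y : E, Adj κ x y → inner ℂ x y ≠ 0 := by
    intro x y h h1
    have h2 : κ ≤ ‖inner ℂ x y‖ ^ 2 := h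
    rw [h1, norm_zero] at h2
    norm_num at h2
    exact absurd h2 (not_le.2 hκ)
  obtain ⟨V, hV⟩ : ∃ V : Set (Set X), V = {S : Set X | ∀ x ∈ S, ∀ y ∈ S, Adj κ (v x) (v y)} :=
    ⟨_, rfl⟩
  have hadj : ∀ S ∈ V, ∀ x ∈ S, ∀ y ∈ S, Adj κ (v x) (v y) := by
    intro S hS
    rw [hV] at hS
    exact hS
  have hdown : Down V := by
    intro S hS T hT
    rw [hV]
    exact fun x hx y hy => hadj S hS x (hT hx) y (hT hy)
  have hmint : ∀ S ∈ V, ∀ x ∈ S, ∀ y ∈ S, ∀ z ∈ S, ∀ w ∈ S,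
      mn (v x) (v y) (v z) (v w) = (round (mn (v x) (v y) (v z) (v w)) : ℝ) := by
    intro S hS x hx y hy z hz w hw
    obtain ⟨k, hk⟩ := hI1 (v x) (v y) (v z) (v w) (hne _ _ (hadj S hS x hx y hy))
      (hne _ _ (hadj S hS x hx z hz)) (hne _ _ (hadj S hS x hx w hw))
      (hne _ _ (hadj S hS y hy z hz)) (hne _ _ (hadj S hS y hy w hw))
      (hne _ _ (hadj S hS z hz w hw))
    rw [hk, round_intCast]
  refine hALG X V hdown (fun x y z => ar (v x) (v y) (v z) / (2 * Real.pi))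
    (fun x y => (inner ℂ (v x) (v y)).arg / (2 * Real.pi))
    (fun x y z w => round (mn (v x) (v y) (v z) (v w))) ?_ ?_ ?_ n hn b ?_ ?_
  · intro S hS x hx y hy z hz
    exact hI2 (v x) (v y) (v z) (hne _ _ (hadj S hS x hx y hy)) (hne _ _ (hadj S hS y hy z hz))
      (hne _ _ (hadj S hS x hx z hz))
  · intro S hS x hx y hy z hz w hw
    rw [← hmint S hS x hx y hy z hz w hw]
    unfold d2 mn
    ring
  · intro S hS hex
    obtain ⟨x, hx, y, hy, z, hz, w, hw, hm⟩ := hex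
    obtain ⟨c, hc⟩ := hClu E (v '' S) (by rintro _ ⟨a, _, rfl⟩; exact hv a)
      (by rintro _ ⟨a, ha, rfl⟩ _ ⟨a', ha', rfl⟩; exact hadj S hS a ha a' ha')
      ⟨v x, ⟨x, hx, rfl⟩, v y, ⟨y, hy, rfl⟩, v z, ⟨z, hz, rfl⟩, v w, ⟨w, hw, rfl⟩, by
        intro h1
        apply hm
        rw [h1, round_zero]⟩
    refine ⟨fun a => c (v a), fun x hx y hy z hz w hw => ?_⟩
    rw [hc (v x) ⟨x, hx, rfl⟩ (v y) ⟨y, hy, rfl⟩ (v z) ⟨z, hz, rfl⟩ (v w) ⟨w, hw, rfl⟩,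
      round_intCast]
  · rw [hV]
    exact hb
  · intro t ht i j k l
    rw [h0 t ht i j k l, round_zero]

end Pool.Agent.H16.FLB
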