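import Pool.Agent.H58.FL.Targets

/-!
# Row FRE of the board flb_modules: invariant sums under a free action
-/

set_option autoImplicit false

open Pool.Agent.H58.FL Pool.Agent.H59 Pool.Agent.H48.FR

namespace Pool.Agent.H16.FLB

theorem pf_FRE : T_FRE := by
  classical
  intro Γ ι A _ _ _ _ _ t hfree hinv
  refine ⟨∑ ω : MulAction.orbitRel.Quotient Γ ι, t ω.out, ?_⟩
  rw [Finset.smul_sum, ← Finset.sum_fiberwise (s := Finset.univ)
    (g := fun i : ι => (Quotient.mk (MulAction.orbitRel Γ ι) i : MulAction.orbitRel.Quotient Γ ι))]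
  refine Finset.sum_congr rfl fun ω _ => ?_
  rw [← Finset.card_univ, ← Finset.sum_const]
  symm
  refine Finset.sum_bij (fun (γ : Γ) _ => γ • ω.out) ?_ ?_ ?_ ?_
  · intro γ _
    rw [Finset.mem_filter]
    refine ⟨Finset.mem_univ _, ?_⟩
    conv_rhs => rw [← Quotient.out_eq ω]
    exact Quotient.sound ⟨γ, rfl⟩
  · intro γ _ γ' _ h
    have h1 : (γ'⁻¹ * γ) • ω.out = ω.out := by
      rw [mul_smul, h, inv_smul_smul]
    have h2 := hfree _ _ h1
    rw [inv_mul_eq_one] at h2
    exact h2.symm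
  · intro i hi
    rw [Finset.mem_filter] at hi
    have h1 : (Quotient.mk (MulAction.orbitRel Γ ι) i) = Quotient.mk _ ω.out := by
      rw [hi.2]; exact (Quotient.out_eq ω).symm
    obtain ⟨γ, hγ⟩ := Quotient.exact h1
    exact ⟨γ, Finset.mem_univ _, hγ⟩
  · intro γ _
    exact (hinv γ _).symm

end Pool.Agent.H16.FLB
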