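import Pool.Agent.H58.FL.Targets

/-!
# Row LAB of the board flb_modules: identities for the labels
-/

set_option autoImplicit false
set_option maxRecDepth 100000
set_option synthInstance.maxSize 1000

open Pool.Agent.H58.FL Pool.Agent.H59 Pool.Agent.H48.FR

namespace Pool.Agent.H16.FLB

private theorem lab1 : ∀ a b c d : Fin 4,
    sg3 b c d - sg3 a c d + sg3 a b d - sg3 a b c = 4 * sg4 a b c d := by decide +kernel

private theorem lab2 : ∀ a b c d e l : Fin 4, l ≠ a → l ≠ b → l ≠ c → l ≠ d → l ≠ e →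
    3 * (sg3 a b c * sg3 c d e) =
      x4 b c d e - x4 a c d e + x4 a b d e - x4 a b c e + x4 a b c d := by decide +kernel

private theorem lab3 : ∀ a b c : Fin 4, Even (sg3 a b c - (x2 b c - x2 a c + x2 a b)) := by
  decide +kernel

private theorem lab4 : ∀ a b c d : Fin 4,
    sg4 a b c d ≠ 0 ↔ a ≠ b ∧ a ≠ c ∧ a ≠ d ∧ b ≠ c ∧ b ≠ d ∧ c ≠ d := by decide +kernel

private theorem lab5 : ∀ a b c d : Fin 4, sg4 b a c d = -sg4 a b c d ∧
    sg4 a c b d = -sg4 a b c d ∧ sg4 a b d c = -sg4 a b c d ∧ |sg4 a b c d| ≤ 1 := by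
  decide +kernel

private theorem lab6 : ∀ (a b c d : Fin 4) (g : Equiv.Perm (Fin 4)),
    sg4 (g a) (g b) (g c) (g d) = ((Equiv.Perm.sign g : ℤˣ) : ℤ) * sg4 a b c d := by
  decide +kernel

private theorem lab7 : ∀ (a b c : Fin 4) (g : Equiv.Perm (Fin 4)), Equiv.Perm.sign g = 1 →
    sg3 (g a) (g b) (g c) = sg3 a b c ∧ x2 (g a) (g b) = x2 a b := by decide +kernel

private theorem lab8 : ∀ a : Fin 4, sg3 a a a = 0 ∧ x2 a a = 0 := by decide +kernel

private theorem lab9 : ∀ a b c d : Fin 4, sg4 a b c d ≠ 0 → ∃ h : Equiv.Perm (Fin 4),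
    h 0 = a ∧ h 1 = b ∧ h 2 = c ∧ h 3 = d ∧
      ((Equiv.Perm.sign h : ℤˣ) : ℤ) = sg4 a b c d := by decide +kernel

private theorem lab10 : ∀ (a b : Fin 4) (g : Equiv.Perm (Fin 4)), Equiv.Perm.sign g = 1 →
    a ≠ b → g a = a → g b = b → g = 1 := by decide +kernel

theorem pf_LAB : T_LAB := by
  refine ⟨lab1, lab2, lab3, lab4, lab5, lab6, lab7, lab8, ?_, lab10⟩
  intro a b c d a' b' c' d' h h'
  obtain ⟨g, g0, g1, g2, g3, hg⟩ := lab9 a b c d h
  obtain ⟨k, k0, k1, k2, k3, hk⟩ := lab9 a' b' c' d' (by rw [h']; exact h)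
  have hs : Equiv.Perm.sign k = Equiv.Perm.sign g := by
    have : ((Equiv.Perm.sign k : ℤˣ) : ℤ) = ((Equiv.Perm.sign g : ℤˣ) : ℤ) := by
      rw [hg, hk, h']
    exact Units.ext this
  refine ⟨k * g⁻¹, ?_, ?_, ?_, ?_, ?_⟩
  · rw [Equiv.Perm.sign_mul, Equiv.Perm.sign_inv, hs]
    exact Int.units_mul_self _
  · rw [← g0]; exact (congrArg k (g.symm_apply_apply 0)).trans k0
  · rw [← g1]; exact (congrArg k (g.symm_apply_apply 1)).trans k1
  · rw [← g2]; exact (congrArg k (g.symm_apply_apply 2)).trans k2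
  · rw [← g3]; exact (congrArg k (g.symm_apply_apply 3)).trans k3

end Pool.Agent.H16.FLB
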