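import Pool.Agent.H58.FL.Targets

/-!
# Row TWL of the board flb_modules: an invariant chain evaluates to a multiple of twelve
-/

set_option autoImplicit false

open Pool.Agent.H58.FL Pool.Agent.H59 Pool.Agent.H48.FR

namespace Pool.Agent.H16.FLB

/-- relabelling of a tuple -/
def rl {X : Type} {k : ℕ} (g : Equiv.Perm (Fin 4)) (t : Fin (k + 1) → X × Fin 4) :
    Fin (k + 1) → X × Fin 4 := fun i => ((t i).1, g (t i).2)

theorem rl_one {X : Type} {k : ℕ} (t : Fin (k + 1) → X × Fin 4) : rl 1 t = t := rfl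

theorem rl_mul {X : Type} {k : ℕ} (g h : Equiv.Perm (Fin 4)) (t : Fin (k + 1) → X × Fin 4) :
    rl (g * h) t = rl g (rl h t) := rfl

theorem z_rl {X : Type} {k : ℕ} (z : LL (k + 1) (X × Fin 4)) (g : Equiv.Perm (Fin 4))
    (h : mapL (k + 1) (fun x : X × Fin 4 => (x.1, g x.2)) z = z) (t : Fin (k + 1) → X × Fin 4) :
    z (rl g t) = z t := by
  have hinj : Function.Injective (fun v : Fin (k + 1) → X × Fin 4 =>
      (fun x : X × Fin 4 => (x.1, g x.2)) ∘ v) := by
    intro v w hvw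
    funext i
    have h1 := congrFun hvw i
    simp only [Function.comp_apply, Prod.mk.injEq, EmbeddingLike.apply_eq_iff_eq] at h1
    exact Prod.ext h1.1 h1.2
  have h2 : mapL (k + 1) (fun x : X × Fin 4 => (x.1, g x.2)) z (rl g t) = z t :=
    Finsupp.mapDomain_apply hinj z t
  rw [h] at h2
  exact h2

theorem card_alt : Fintype.card (alternatingGroup (Fin 4)) = 12 := by
  have h := two_mul_card_alternatingGroup (α := Fin 4)
  rw [Fintype.card_perm, Fintype.card_fin] at h
  have : Nat.factorial 4 = 24 := rfl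
  omega

theorem pf_TWL (hLAB : T_LAB) (hFRE : T_FRE) : T_TWL := by
  classical
  intro X k α z _ hz hα h0 hint
  obtain ⟨-, -, -, -, -, -, -, -, -, hfix⟩ := hLAB
  choose! r hr using hint
  obtain ⟨S, hS⟩ : ∃ S : Finset (Fin (k + 1) → X × Fin 4),
      S = z.support.filter (fun t => ∃ i j, (t i).2 ≠ (t j).2) := ⟨_, rfl⟩
  have hmem : ∀ t, t ∈ S ↔ t ∈ z.support ∧ ∃ i j, (t i).2 ≠ (t j).2 := by
    intro t
    rw [hS, Finset.mem_filter]
  have hsmul : ∀ (g : alternatingGroup (Fin 4)) (t : Fin (k + 1) → X × Fin 4), t ∈ S →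
      rl g.1 t ∈ S := by
    intro g t ht
    rw [hmem] at ht ⊢
    have hg := Equiv.Perm.mem_alternatingGroup.1 g.2
    refine ⟨?_, ?_⟩
    · rw [Finsupp.mem_support_iff, z_rl z g.1 (hz g.1 hg)]
      exact Finsupp.mem_support_iff.1 ht.1
    · obtain ⟨i, j, hij⟩ := ht.2
      exact ⟨i, j, fun h => hij (g.1.injective h)⟩
  let act : MulAction (alternatingGroup (Fin 4)) S :=
    { smul := fun g t => ⟨rl g.1 t.1, hsmul g t.1 t.2⟩
      one_smul := fun t => Subtype.ext (rl_one t.1)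
      mul_smul := fun g h t => Subtype.ext (rl_mul g.1 h.1 t.1) }
  have hval : ∀ (g : alternatingGroup (Fin 4)) (t : S), (g • t).1 = rl g.1 t.1 := fun _ _ => rfl
  obtain ⟨N, hN⟩ := hFRE (alternatingGroup (Fin 4)) S ℤ (fun t => z t.1 * r t.1) (by
    intro g t ht
    obtain ⟨i, j, hij⟩ := ((hmem t.1).1 t.2).2
    have h1 : rl g.1 t.1 = t.1 := by rw [← hval, ht]
    have h2 := hfix _ _ g.1 (Equiv.Perm.mem_alternatingGroup.1 g.2) hij
      (congrArg Prod.snd (congrFun h1 i)) (congrArg Prod.snd (congrFun h1 j))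
    exact Subtype.ext h2) (by
    intro g t
    have hg := Equiv.Perm.mem_alternatingGroup.1 g.2
    have h1 : z (g • t).1 = z t.1 := by rw [hval, z_rl z g.1 (hz g.1 hg)]
    have h2 : r (g • t).1 = r t.1 := by
      have h3 := hr t.1 ((hmem t.1).1 t.2).1
      have h4 := hr (g • t).1 ((hmem _).1 (g • t).2).1
      have h5 := hα g.1 hg t.1 ((hmem t.1).1 t.2).1
      have h6 : α (ex (g • t).1) = α (ex t.1) := h5
      rw [h3, h4] at h6
      exact_mod_cast h6
    change z (g • t).1 * r (g • t).1 = z t.1 * r t.1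
    rw [h1, h2])
  refine ⟨N, ?_⟩
  have h1 : ev k α z = ∑ t ∈ S, (z t : ℝ) * α (ex t) := by
    unfold ev
    rw [Finsupp.sum, hS]
    symm
    apply Finset.sum_subset (Finset.filter_subset _ _)
    intro t ht ht'
    rw [h0 t ht (fun i j => by
      by_contra h
      exact ht' (Finset.mem_filter.2 ⟨ht, i, j, h⟩)), mul_zero]
  have h2 : ∑ t ∈ S, (z t : ℝ) * α (ex t) = ((∑ t ∈ S, z t * r t : ℤ) : ℝ) := by
    rw [Int.cast_sum]
    refine Finset.sum_congr rfl fun t ht => ?_
    rw [hr t ((hmem t).1 ht).1, Int.cast_mul]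
  rw [h1, h2, ← Finset.sum_coe_sort, hN, card_alt]
  simp

end Pool.Agent.H16.FLB
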